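import Pool.Agent.H52.PAG.Defs

/-!
# Relabelling of Artin groups
-/

set_option autoImplicit false

namespace Pool.Agent.H10.DT

open Pool.Agent.H52.PAG

/-- the homomorphism given by a map of the vertices which preserves the labels -/
def relab {B B' : Type} (M : CoxeterMatrix B) (M' : CoxeterMatrix B') (e : B → B')
    (h : ∀ x y, M' (e x) (e y) = M x y) : Art M →* Art M' :=
  lift (fun x => gen M' (e x)) (by
    intro i j hij
    have h1 : M' (e i) (e j) ≠ 0 := by rw [h]; exact hij
    have h2 := gen_rel h1
    rw [h] at h2
    exact h2)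

theorem relab_gen {B B' : Type} (M : CoxeterMatrix B) (M' : CoxeterMatrix B') (e : B → B')
    (h : ∀ x y, M' (e x) (e y) = M x y) (x : B) : relab M M' e h (gen M x) = gen M' (e x) := lift_gen _ _ x

/-- relabelling of Artin groups -/
theorem art_congr {B B' : Type} (M : CoxeterMatrix B) (M' : CoxeterMatrix B') (e : B ≃ B')
    (h : ∀ x y, M' (e x) (e y) = M x y) : Nonempty (Art M ≃* Art M') := by
  have h' : ∀ x y, M (e.symm x) (e.symm y) = M' x y := by
    intro x y
    have := h (e.symm x) (e.symm y)
    rw [e.apply_symm_apply, e.apply_symm_apply] at this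
    exact this.symm
  refine ⟨MonoidHom.toMulEquiv (relab M M' e h) (relab M' M e.symm h') ?_ ?_⟩
  · apply art_ext
    intro i
    rw [MonoidHom.comp_apply, relab_gen, relab_gen, e.symm_apply_apply]
    rfl
  · apply art_ext
    intro i
    rw [MonoidHom.comp_apply, relab_gen, relab_gen, e.apply_symm_apply]
    rfl

end Pool.Agent.H10.DT
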