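import Pool.Agent.H10.DT.Brd

/-!
# The element `α`

`S 0` and `S n` are involutions, `S 0, …, S n` satisfy the Artin relations of type `C~_n`. `UU n = S n`,
`UU k = S k UU (k + 1) (S k)⁻¹`. The element `α = P'⁻¹ δ⁻ⁿ P` satisfies the relations of the class of `pa` in `Np`.
-/

set_option autoImplicit false

namespace Pool.Agent.H10.DT

variable {G : Type*} [Group G]

/-- the relations of type `C~_n`, the generators at the ends are involutions -/
structure CT (S : ℕ → G) (n : ℕ) : Prop where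
  two : 2 ≤ n
  sq0 : S 0 * S 0 = 1
  sqn : S n * S n = 1
  b0 : S 0 * S 1 * S 0 * S 1 = S 1 * S 0 * S 1 * S 0
  bn : S n * S (n - 1) * S n * S (n - 1) = S (n - 1) * S n * S (n - 1) * S n
  braid : ∀ k, 1 ≤ k → k + 1 < n → S k * S (k + 1) * S k = S (k + 1) * S k * S (k + 1)
  comm : ∀ j k, j + 2 ≤ k → k ≤ n → S j * S k = S k * S j

/-- the mirror image -/
def mir (S : ℕ → G) (n : ℕ) (k : ℕ) : G := (S (n - k))⁻¹

/-- the conjugates of the other involution, `UU k = S k UU (k + 1) (S k)⁻¹` for `k < n` -/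
def UU (S : ℕ → G) (n : ℕ) (k : ℕ) : G := TT (mir S n) (n - k)

/-- the element `α` -/
def alp (S : ℕ → G) (n : ℕ) : G := (PP (mir S n) n)⁻¹ * ((DD S (n - 1)) ^ n)⁻¹ * PP S n

namespace CT

variable {S : ℕ → G} {n : ℕ} (h : CT S n)
include h

theorem left : HT S n where
  sq := h.sq0
  b0 := h.b0
  braid := h.braid
  comm j k hjk hk := h.comm j k hjk (by omega)

theorem right : HT (mir S n) n where
  sq := by
    change (S n)⁻¹ * (S n)⁻¹ = 1
    rw [← mul_inv_rev, h.sqn, inv_one]
  b0 := by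
    change (S n)⁻¹ * (S (n - 1))⁻¹ * (S n)⁻¹ * (S (n - 1))⁻¹ = (S (n - 1))⁻¹ * (S n)⁻¹ * (S (n - 1))⁻¹ * (S n)⁻¹
    have h1 : (S n * S (n - 1) * S n * S (n - 1))⁻¹ = (S (n - 1) * S n * S (n - 1) * S n)⁻¹ := by rw [h.bn]
    calc (S n)⁻¹ * (S (n - 1))⁻¹ * (S n)⁻¹ * (S (n - 1))⁻¹ = (S (n - 1) * S n * S (n - 1) * S n)⁻¹ := by group
      _ = (S n * S (n - 1) * S n * S (n - 1))⁻¹ := h1.symm
      _ = _ := by group
  braid k hk hkn := by
    have h1 := h.braid (n - (k + 1)) (by omega) (by omega)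
    have e1 : n - (k + 1) + 1 = n - k := by omega
    rw [e1] at h1
    change (S (n - k))⁻¹ * (S (n - (k + 1)))⁻¹ * (S (n - k))⁻¹ =
      (S (n - (k + 1)))⁻¹ * (S (n - k))⁻¹ * (S (n - (k + 1)))⁻¹
    have h2 : (S (n - (k + 1)) * S (n - k) * S (n - (k + 1)))⁻¹ = (S (n - k) * S (n - (k + 1)) * S (n - k))⁻¹ := by
      rw [h1]
    calc (S (n - k))⁻¹ * (S (n - (k + 1)))⁻¹ * (S (n - k))⁻¹ = (S (n - k) * S (n - (k + 1)) * S (n - k))⁻¹ := by group
      _ = (S (n - (k + 1)) * S (n - k) * S (n - (k + 1)))⁻¹ := h2.symm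
      _ = _ := by group
  comm j k hjk hk := by
    have h1 := h.comm (n - k) (n - j) (by omega) (by omega)
    have h2 := congrArg (fun x => x⁻¹) h1
    simp only [mul_inv_rev] at h2
    exact h2

theorem U_last : UU S n n = S n := by
  have : UU S n n = (S n)⁻¹ := by
    rw [UU, Nat.sub_self]
    rfl
  rw [this]
  exact inv_eq_of_mul_eq_one_left h.sqn

theorem U_sq (k : ℕ) : UU S n k * UU S n k = 1 := h.right.tsq _

/-- `S k UU (k + 1) (S k)⁻¹ = UU k` -/
theorem U_succ (k : ℕ) (hk : k < n) : S k * UU S n (k + 1) * (S k)⁻¹ = UU S n k := by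
  have e1 : n - k = n - (k + 1) + 1 := by omega
  have e2 : n - (n - (k + 1) + 1) = k := by omega
  rw [UU, UU, e1, TT_succ, mir, e2]
  group

/-- `S k UU k (S k)⁻¹ = UU k UU (k + 1) UU k` -/
theorem U_self (k : ℕ) (hk : 1 ≤ k) (hkn : k < n) :
    S k * UU S n k * (S k)⁻¹ = UU S n k * UU S n (k + 1) * UU S n k := by
  have h1 := h.right.s_t (n - (k + 1)) (by omega)
  have e1 : n - (k + 1) + 1 = n - k := by omega
  have e2 : n - (n - k) = k := by omega
  rw [e1, mir, e2, inv_inv] at h1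
  change (S k)⁻¹ * UU S n (k + 1) * S k = UU S n (k + 1) * UU S n k * UU S n (k + 1) at h1
  have h2 := h.U_succ k hkn
  have h3 := h.U_sq k
  have h4 := h.U_sq (k + 1)
  generalize UU S n k = u at h1 h2 h3 ⊢
  generalize UU S n (k + 1) = v at h1 h2 h4 ⊢
  have h5 : v = (S k * v * (S k)⁻¹) * (S k * u * (S k)⁻¹) * (S k * v * (S k)⁻¹) := by
    calc v = S k * ((S k)⁻¹ * v * S k) * (S k)⁻¹ := by group
      _ = _ := by rw [h1]; group
  rw [h2] at h5
  rw [h5]
  calc S k * u * (S k)⁻¹ = (u * u) * (S k * u * (S k)⁻¹) * (u * u) := by rw [h3]; group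
    _ = _ := by group

/-- `S k` commutes with the other `UU j` -/
theorem U_comm (k j : ℕ) (hk : 1 ≤ k) (hkn : k < n) (hj : 1 ≤ j) (hjn : j ≤ n) (h1 : j ≠ k) (h2 : j ≠ k + 1) :
    Commute (S k) (UU S n j) := by
  have key : Commute (mir S n (n - k)) (TT (mir S n) (n - j)) := by
    rcases Nat.lt_or_ge k j with h3 | h3
    · exact h.right.t1 (n - j) (n - k) (by omega) (by omega)
    · exact h.right.t2 (n - j) (n - k) (by omega) (by omega) (by omega)
  have e1 : mir S n (n - k) = (S k)⁻¹ := by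
    rw [mir, show n - (n - k) = k by omega]
  rw [e1] at key
  have := key.inv_left
  rwa [inv_inv] at this

/-- `S 0` commutes with `UU j`, `2 ≤ j` -/
theorem U0_comm (j : ℕ) (hj : 2 ≤ j) (hjn : j ≤ n) : Commute (S 0) (UU S n j) := by
  have key : ∀ m, m + 2 ≤ n → Commute (S 0) (TT (mir S n) m) := by
    intro m
    induction m with
    | zero =>
      intro hm
      have h1 : Commute (S 0) (S n) := h.comm 0 n hm le_rfl
      exact h1.inv_right
    | succ m ih =>
      intro hm
      have h1 : Commute (S 0) (mir S n (m + 1)) :=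
        (show Commute (S 0) (S (n - (m + 1))) from h.comm 0 (n - (m + 1)) (by omega) (by omega)).inv_right
      exact (h1.inv_right.mul_right (ih (by omega))).mul_right h1
  exact key (n - j) (by omega)

theorem P'_eq : ∃ W : G, PP (mir S n) n = W * UU S n 1 ∧ Commute (S 0) W := by
  obtain ⟨m, hm⟩ : ∃ m, n = m + 1 := ⟨n - 1, by have := h.two; omega⟩
  refine ⟨PP (mir S n) m, ?_, ?_⟩
  · have : PP (mir S n) (m + 1) = PP (mir S n) m * UU S n 1 := by
      rw [PP_succ, UU]
      have e1 : n - 1 = m := by omega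
      rw [e1]
    rw [← this]
    congr 1
  · have key : ∀ j, j ≤ m → Commute (S 0) (PP (mir S n) j) := by
      intro j
      induction j with
      | zero => intro _; exact Commute.one_right _
      | succ j ih =>
        intro hj
        have h1 := h.U0_comm (n - j) (by omega) (by omega)
        rw [UU, show n - (n - j) = j by omega] at h1
        exact (ih (by omega)).mul_right h1
    exact key m le_rfl

omit h in
theorem DD_mir (m : ℕ) (hm : m + 1 = n) : DD (mir S n) m = (DD S m)⁻¹ := by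
  have key : ∀ j, j ≤ m → DD S m * DD (mir S n) j = DD S (m - j) := by
    intro j
    induction j with
    | zero => intro _; simp [DD]
    | succ j ih =>
      intro hj
      have h1 := ih (by omega)
      have h2 : mir S n (j + 1) = (S (m - j))⁻¹ := by
        rw [mir, show n - (j + 1) = m - j by omega]
      obtain ⟨p, hp⟩ : ∃ p, m - j = p + 1 := ⟨m - j - 1, by omega⟩
      have h3 : m - (j + 1) = p := by omega
      rw [DD_succ, ← mul_assoc, h1, h2, h3, hp, DD_succ, mul_inv_cancel_right]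
  have h1 := key m le_rfl
  rw [Nat.sub_self] at h1
  exact eq_inv_of_mul_eq_one_right h1

/-- `S k` commutes with `α` -/
theorem alp_comm (k : ℕ) (hk : 1 ≤ k) (hkn : k < n) : Commute (S k) (alp S n) := by
  have hD := h.left.D_central k hk hkn
  have hP : Commute (S k) (PP S n) := by
    obtain ⟨p, rfl⟩ : ∃ p, k = p + 1 := ⟨k - 1, by omega⟩
    exact h.left.PP_comm p n (by omega) le_rfl
  have hP' : Commute (S k) (PP (mir S n) n) := by
    obtain ⟨p, hp⟩ : ∃ p, n - k = p + 1 := ⟨n - k - 1, by omega⟩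
    have h1 := h.right.PP_comm p n (by omega) le_rfl
    rw [← hp, mir, show n - (n - k) = k by omega] at h1
    have := h1.inv_left
    rwa [inv_inv] at this
  exact (hP'.inv_right.mul_right hD.symm.inv_right).mul_right hP

/-- conjugation of `S 0` by `α` -/
theorem alp_S0 : alp S n * S 0 * (alp S n)⁻¹ = UU S n 1 * S 0 * UU S n 1 := by
  have hn := h.two
  have hc := h.left.cc0 (by omega)
  obtain ⟨W, hW, hSW⟩ := h.P'_eq
  have hu := h.U_sq 1
  have e1 : alp S n = (PP (mir S n) n)⁻¹ * ((PP S n)⁻¹ * (DD S (n - 1)) ^ n)⁻¹ := by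
    rw [alp]; group
  rw [e1, hW]
  generalize (PP S n)⁻¹ * (DD S (n - 1)) ^ n = c at hc ⊢
  generalize UU S n 1 = u at hu ⊢
  have hui : u⁻¹ = u := inv_eq_of_mul_eq_one_left hu
  have h1 : c⁻¹ * S 0 * c = S 0 := by rw [mul_assoc, ← hc.eq]; group
  have h2 : W⁻¹ * S 0 * W = S 0 := by rw [mul_assoc, hSW.eq]; group
  calc (W * u)⁻¹ * c⁻¹ * S 0 * ((W * u)⁻¹ * c⁻¹)⁻¹ = u⁻¹ * (W⁻¹ * (c⁻¹ * S 0 * c) * W) * u := by group
    _ = u * S 0 * u := by rw [h1, h2, hui]

/-- `UU 1 = δ S n δ⁻¹` -/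
theorem U_one : UU S n 1 = DD S (n - 1) * S n * (DD S (n - 1))⁻¹ := by
  have key : ∀ m, m < n → DD S m * UU S n (m + 1) * (DD S m)⁻¹ = UU S n 1 := by
    intro m
    induction m with
    | zero => intro _; rw [DD]; group
    | succ m ih =>
      intro hm
      have h1 := h.U_succ (m + 1) hm
      have h2 := ih (by omega)
      rw [DD_succ, ← h2, ← h1]
      group
  have hn := h.two
  have h1 := key (n - 1) (by omega)
  rw [show n - 1 + 1 = n by omega, h.U_last] at h1
  exact h1.symm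

/-- `S n` commutes with the conjugates `TT j`, `j ≤ n - 2` -/
theorem TT_Sn (j : ℕ) (hj : j + 2 ≤ n) : Commute (S n) (TT S j) := by
  induction j with
  | zero => exact (h.comm 0 n hj le_rfl).symm
  | succ j ih =>
    have h1 : Commute (S n) (S (j + 1)) := (h.comm (j + 1) n hj le_rfl).symm
    exact (h1.inv_right.mul_right (ih (by omega))).mul_right h1

/-- `P S 0` commutes with `UU 1` -/
theorem PU : Commute (PP S n * S 0) (UU S n 1) := by
  have hn := h.two
  have hU := h.U_one
  have key : ∀ m, m < n → PP S (m + 1) * S 0 = DD S (n - 1) * PP S m * (DD S (n - 1))⁻¹ := by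
    intro m
    induction m with
    | zero =>
      intro _
      change 1 * S 0 * S 0 = DD S (n - 1) * 1 * (DD S (n - 1))⁻¹
      rw [one_mul, h.sq0, mul_one, mul_inv_cancel]
    | succ m ih =>
      intro hm
      have h1 := h.left.DD_TT' m (n - 1) (by omega) (by omega)
      have h2 := ih (by omega)
      have h3 : TT S 0 = S 0 := rfl
      rw [h3] at h1
      rw [PP_succ (k := m + 1)]
      calc PP S (m + 1) * TT S (m + 1) * S 0 = (PP S (m + 1) * S 0) * (S 0)⁻¹ * TT S (m + 1) * S 0 := by group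
        _ = (PP S (m + 1) * S 0) * (S 0 * TT S (m + 1) * S 0) := by
            rw [inv_eq_of_mul_eq_one_left h.sq0]; group
        _ = _ := by rw [h2, ← h1, PP_succ]; group
  have hPn : ∀ m, m + 1 ≤ n → Commute (S n) (PP S m) := by
    intro m
    induction m with
    | zero => intro _; exact Commute.one_right _
    | succ m ih =>
      intro hm
      exact (ih (by omega)).mul_right (h.TT_Sn m (by omega))
  have h1 := key (n - 1) (by omega)
  rw [show n - 1 + 1 = n by omega] at h1
  rw [h1, hU]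
  have h2 := hPn (n - 1) (by omega)
  generalize DD S (n - 1) = D
  generalize PP S (n - 1) = P at h2 ⊢
  calc D * P * D⁻¹ * (D * S n * D⁻¹) = D * (P * S n) * D⁻¹ := by group
    _ = D * (S n * P) * D⁻¹ := by rw [h2.eq]
    _ = _ := by group

/-- conjugation of `UU 1` by `α⁻¹` -/
theorem alp_U1 : (alp S n)⁻¹ * UU S n 1 * alp S n = S 0 * UU S n 1 * S 0 := by
  have hn := h.two
  have hPU := h.PU
  -- `δ ^ n P'` commutes with `UU 1`
  have hD : DD (mir S n) (n - 1) = (DD S (n - 1))⁻¹ := DD_mir (n - 1) (by omega)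
  have hc : ∀ j, 1 ≤ j → j ≤ n → Commute ((PP (mir S n) n)⁻¹ * ((DD S (n - 1))⁻¹) ^ n) (S j) := by
    intro j hj hjn
    rw [← hD]
    rcases Nat.lt_or_ge j n with h1 | h1
    · have h2 := h.right.cck (n - j) (by omega) (by omega)
      rw [mir, show n - (n - j) = j by omega] at h2
      have := h2.inv_right
      rwa [inv_inv] at this
    · have hj' : j = n := by omega
      subst hj'
      have h2 := h.right.cc0 (by omega)
      have h3 : mir S j 0 = (S j)⁻¹ := rfl
      rw [h3] at h2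
      have := h2.inv_right
      rwa [inv_inv] at this
  have hDc : ∀ m, m < n → Commute ((PP (mir S n) n)⁻¹ * ((DD S (n - 1))⁻¹) ^ n) (DD S m) := by
    intro m
    induction m with
    | zero => intro _; exact Commute.one_right _
    | succ m ih =>
      intro hm
      exact (ih (by omega)).mul_right (hc (m + 1) (by omega) (by omega))
  have hcU : Commute ((PP (mir S n) n)⁻¹ * ((DD S (n - 1))⁻¹) ^ n) (UU S n 1) := by
    rw [h.U_one]
    exact ((hDc _ (by omega)).mul_right (hc n (by omega) le_rfl)).mul_right (hDc _ (by omega)).inv_right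
  have e1 : alp S n = ((PP (mir S n) n)⁻¹ * ((DD S (n - 1))⁻¹) ^ n) * PP S n := by
    rw [alp, inv_pow]
  rw [e1]
  generalize (PP (mir S n) n)⁻¹ * ((DD S (n - 1))⁻¹) ^ n = c at hcU ⊢
  generalize UU S n 1 = u at hcU hPU ⊢
  have h1 : c⁻¹ * u * c = u := by rw [mul_assoc, ← hcU.eq]; group
  have h2 : (PP S n * S 0)⁻¹ * u * (PP S n * S 0) = u := by rw [mul_assoc, ← hPU.eq]; group
  have h3 : (PP S n)⁻¹ * u * PP S n = S 0 * u * S 0 := by
    calc (PP S n)⁻¹ * u * PP S n = S 0 * ((PP S n * S 0)⁻¹ * u * (PP S n * S 0)) * (S 0)⁻¹ := by group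
      _ = _ := by rw [h2, inv_eq_of_mul_eq_one_left h.sq0]
  calc (c * PP S n)⁻¹ * u * (c * PP S n) = (PP S n)⁻¹ * (c⁻¹ * u * c) * PP S n := by group
    _ = _ := by rw [h1, h3]

/-- `α` commutes with `UU 1 S 0` -/
theorem alp_y : Commute (alp S n) (UU S n 1 * S 0) := by
  have h1 := h.alp_S0
  have h2 := h.alp_U1
  have h3 := h.sq0
  have h4 := h.U_sq 1
  generalize alp S n = a at h1 h2 ⊢
  generalize UU S n 1 = u at h1 h2 h4 ⊢
  generalize S 0 = t at h1 h2 h3 ⊢
  have ht : t⁻¹ = t := inv_eq_of_mul_eq_one_left h3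
  have hu : u⁻¹ = u := inv_eq_of_mul_eq_one_left h4
  have h5 : u = (a * t * a⁻¹) * (a * u * a⁻¹) * (a * t * a⁻¹) := by
    calc u = a * (a⁻¹ * u * a) * a⁻¹ := by group
      _ = _ := by rw [h2]; group
  rw [h1] at h5
  have h7 : a * (u * t) * a⁻¹ = u * t := by
    have h8 : a * (u * t) * a⁻¹ = (a * u * a⁻¹) * (a * t * a⁻¹) := by group
    rw [h8, h1]
    generalize a * u * a⁻¹ = b at h5 ⊢
    have h9 : b * (u * t * u) = (u * t * u)⁻¹ * (u * t * u * b * (u * t * u)) := by group
    rw [h9, ← h5, mul_inv_rev, mul_inv_rev, hu, ht]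
    calc u * (t * u) * u = u * t * (u * u) := by group
      _ = u * t := by rw [h4, mul_one]
  exact mul_inv_eq_iff_eq_mul.1 h7

/-- conjugation of `α` by the involutions -/
theorem alp_conj : S 0 * alp S n * S 0 = UU S n 1 * alp S n * UU S n 1 := by
  have h2 := h.alp_y
  have h3 := h.sq0
  have h4 := h.U_sq 1
  generalize alp S n = a at h2 ⊢
  generalize UU S n 1 = u at h2 h4 ⊢
  generalize S 0 = t at h2 h3 ⊢
  have h5 : a * (u * t) = u * t * a := h2.eq
  calc t * a * t = u * u * t * a * t := by rw [h4, one_mul]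
    _ = u * (u * t * a) * t := by group
    _ = u * a * u * (t * t) := by rw [← h5]; group
    _ = _ := by rw [h3, mul_one]

/-- conjugation of `UU 1` by `S 0` -/
theorem S0_U1 : S 0 * UU S n 1 * S 0 = UU S n 1 * alp S n * UU S n 1 * (alp S n)⁻¹ * UU S n 1 := by
  have h1 := h.alp_S0
  have h2 := h.alp_conj
  have h3 := h.sq0
  have h4 := h.U_sq 1
  rw [← h2]
  generalize alp S n = a at h1 h2 ⊢
  generalize UU S n 1 = u at h1 h2 h4 ⊢
  generalize S 0 = t at h1 h2 h3 ⊢
  calc t * u * t = t * u * t * (u * u) := by rw [h4, mul_one]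
    _ = t * (u * t * u) * u := by group
    _ = t * a * t * a⁻¹ * u := by rw [← h1]; group

/-- `α` commutes with `UU 1 α UU 1` -/
theorem alp_comm2 : Commute (alp S n) (UU S n 1 * alp S n * UU S n 1) := by
  have h1 := h.alp_S0
  have h2 := h.alp_y
  have h3 := h.sq0
  have h4 := h.U_sq 1
  rw [← h.alp_conj]
  generalize alp S n = a at h1 h2 ⊢
  generalize UU S n 1 = u at h1 h2 h4 ⊢
  generalize S 0 = t at h1 h2 h3 ⊢
  have hu : u⁻¹ = u := inv_eq_of_mul_eq_one_left h4
  have ht : t⁻¹ = t := inv_eq_of_mul_eq_one_left h3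
  -- `a t = y t y⁻¹ a`, `t y t = y⁻¹`, `y = u t`
  generalize hy : u * t = y at h2
  have e1 : a * t = y * t * y⁻¹ * a := by
    have : a * t = (a * t * a⁻¹) * a := by group
    rw [this, h1, ← hy, mul_inv_rev, hu, ht]
    calc u * t * u * a = u * (t * t) * t * u * a := by rw [h3]; group
      _ = _ := by group
  have e2 : t * y * t = y⁻¹ := by
    rw [← hy, mul_inv_rev, hu, ht]
    calc t * (u * t) * t = t * u * (t * t) := by group
      _ = t * u := by rw [h3, mul_one]
  have e3 : a * y = y * a := h2.eq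
  have e3' : a * y⁻¹ = y⁻¹ * a := h2.inv_right.eq
  change a * (t * a * t) = t * a * t * a
  calc a * (t * a * t) = (a * t) * (a * t) := by group
    _ = y * t * y⁻¹ * (a * y) * t * y⁻¹ * a := by rw [e1]; group
    _ = y * t * y⁻¹ * y * (a * t) * y⁻¹ * a := by rw [e3]; group
    _ = y * t * (y * t * y⁻¹ * a) * y⁻¹ * a := by rw [e1]; group
    _ = y * (t * y * t) * y⁻¹ * (a * y⁻¹) * a := by group
    _ = y⁻¹ * y⁻¹ * a * a := by rw [e2, e3']; group
    _ = (t * y * t) * y⁻¹ * a * a := by rw [e2]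
    _ = t * (y * t * y⁻¹ * a) * a := by group
    _ = t * (a * t) * a := by rw [e1]
    _ = t * a * t * a := by group

end CT

end Pool.Agent.H10.DT
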