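import Pool.Agent.H98.FJ.P.Ext0

/-!
# Extensions with free kernel

If the class contains all groups `F ⋊ ℤ`, `F` a free group, and has the extension property then it contains all groups which
have a homomorphism with free kernel to a group in the class.
-/

set_option autoImplicit false

namespace Pool.Agent.H10.DT

open Pool.Agent.H98.FJ

/-- the class contains the extensions of free groups (of arbitrary rank) by the infinite cyclic group -/
def FreeByZ (C : (G : Type) → [Group G] → Prop) : Prop :=
  ∀ (α : Type) (φ : MulAut (FreeGroup α)), C (FreeGroup α ⋊[zpowersHom _ φ] Multiplicative ℤ)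

theorem free_of_injective {A B : Type} [Group A] [Group B] (φ : A →* B) (hφ : Function.Injective φ)
    (h : IsFreeGroup B) : IsFreeGroup A :=
  IsFreeGroup.ofMulEquiv (MonoidHom.ofInjective hφ).symm

private theorem compat_nat {F G : Type} [Group F] [Group G] (fn : F →* G) (φ : MulAut F) (g : G)
    (h : ∀ x, fn (φ x) = g * fn x * g⁻¹) (n : ℕ) : ∀ x, fn ((φ ^ n) x) = g ^ n * fn x * (g ^ n)⁻¹ := by
  induction n with
  | zero => intro x; simp
  | succ n ih =>
    intro x
    rw [pow_succ, MulAut.mul_apply, ih, h, pow_succ]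
    group

private theorem compat {F G : Type} [Group F] [Group G] (fn : F →* G) (φ : MulAut F) (g : G)
    (h : ∀ x, fn (φ x) = g * fn x * g⁻¹) (n : ℤ) (x : F) : fn ((φ ^ n) x) = g ^ n * fn x * (g ^ n)⁻¹ := by
  have h' : ∀ x, fn (φ⁻¹ x) = g⁻¹ * fn x * g⁻¹⁻¹ := by
    intro x
    have h1 := h (φ⁻¹ x)
    rw [MulAut.apply_inv_self] at h1
    rw [h1]
    group
  obtain ⟨m, rfl | rfl⟩ := n.eq_nat_or_neg
  · rw [zpow_natCast, zpow_natCast]
    exact compat_nat fn φ g h m x
  · have h2 := compat_nat fn φ⁻¹ g⁻¹ h' m x
    rw [inv_pow, inv_pow] at h2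
    rw [zpow_neg, zpow_neg, zpow_natCast, zpow_natCast]
    exact h2

/-- free groups -/
theorem mem_free {C : (G : Type) → [Group G] → Prop} (hC : Inherits C) (hF : FreeByZ C) (G : Type) [Group G]
    (hG : IsFreeGroup G) : C G := by
  have e : G ≃* FreeGroup (IsFreeGroup.Generators G) := IsFreeGroup.toFreeGroup G
  exact hC.of_injective ((SemidirectProduct.inl : _ →* _ ⋊[zpowersHom _ 1] Multiplicative ℤ).comp e.toMonoidHom)
    (SemidirectProduct.inl_injective.comp e.injective) (hF _ 1)

theorem mem_cyc {C : (G : Type) → [Group G] → Prop} (hC : Inherits C) (hF : FreeByZ C) (L V : Type) [Group L]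
    [Group V] (f : L →* V) (v : V) (hv : ∀ y, f y ∈ Subgroup.zpowers v) (g : L) (hg : f g = v)
    (hK : IsFreeGroup f.ker) : C L := by
  by_cases hfin : IsOfFinOrder v
  · have h1 : Finite (Subgroup.zpowers v) := finite_zpowers.2 hfin
    have h2 : Finite f.range := by
      have h3 : f.range ≤ Subgroup.zpowers v := by
        rintro _ ⟨y, rfl⟩
        exact hv y
      exact Finite.of_injective _ (Subgroup.inclusion_injective h3)
    exact hC.index L f.ker inferInstance (mem_free hC hF _ hK)
  · have hpow : ∀ n : ℤ, v ^ n = 1 → n = 0 := by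
      intro n hn
      by_contra hne
      exact hfin (isOfFinOrder_iff_zpow_eq_one.2 ⟨n, hne, hn⟩)
    let e : FreeGroup (IsFreeGroup.Generators f.ker) ≃* f.ker := (IsFreeGroup.toFreeGroup f.ker).symm
    let cnj : MulAut f.ker := MulAut.conjNormal g
    let φ : MulAut (FreeGroup (IsFreeGroup.Generators f.ker)) := (e.trans cnj).trans e.symm
    let fn : FreeGroup (IsFreeGroup.Generators f.ker) →* L := f.ker.subtype.comp e.toMonoidHom
    have h1 : ∀ x, fn (φ x) = g * fn x * g⁻¹ := by
      intro x
      change ((e (e.symm (cnj (e x))) : f.ker) : L) = _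
      rw [e.apply_symm_apply]
      exact MulAut.conjNormal_apply g (e x)
    let P : FreeGroup (IsFreeGroup.Generators f.ker) ⋊[zpowersHom _ φ] Multiplicative ℤ →* L :=
      SemidirectProduct.lift fn (zpowersHom L g) (by
        intro n
        ext1 x
        simp only [MonoidHom.comp_apply, MulEquiv.coe_toMonoidHom, MulAut.conj_apply, zpowersHom_apply]
        exact compat fn φ g h1 _ _)
    have hP : ∀ z, P z = fn z.left * g ^ (Multiplicative.toAdd z.right) := by
      intro z
      conv_lhs => rw [← SemidirectProduct.inl_left_mul_inr_right z]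
      rw [map_mul]
      simp only [P, SemidirectProduct.lift_inl, SemidirectProduct.lift_inr, zpowersHom_apply]
    have hfn : ∀ x, f (fn x) = 1 := fun x => (e x).2
    have hinj : Function.Injective P := by
      rw [injective_iff_map_eq_one]
      intro z hz
      rw [hP] at hz
      have h2 : f (fn z.left * g ^ (Multiplicative.toAdd z.right)) = 1 := by rw [hz, map_one]
      rw [map_mul, hfn, one_mul, map_zpow, hg] at h2
      have h3 := hpow _ h2
      rw [h3, zpow_zero, mul_one] at hz
      have h4 : e z.left = 1 := Subtype.ext hz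
      have h5 : z.left = 1 := by
        rw [← e.symm_apply_apply z.left, h4, map_one]
      exact SemidirectProduct.ext h5 h3
    have hsurj : Function.Surjective P := by
      intro y
      obtain ⟨n, hn⟩ := hv y
      have hn' : v ^ n = f y := hn
      have h2 : y * (g ^ n)⁻¹ ∈ f.ker := by
        rw [MonoidHom.mem_ker, map_mul, map_inv, map_zpow, hg, hn', mul_inv_cancel]
      refine ⟨⟨e.symm ⟨_, h2⟩, Multiplicative.ofAdd n⟩, ?_⟩
      rw [hP]
      change ((e (e.symm ⟨_, h2⟩) : f.ker) : L) * g ^ n = y
      rw [e.apply_symm_apply]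
      group
    exact hC.iso _ L (MulEquiv.ofBijective P ⟨hinj, hsurj⟩) (hF _ φ)

/-- extensions with free kernel -/
theorem fk {C : (G : Type) → [Group G] → Prop} (hC : Inherits C) (hE : Extension C) (hF : FreeByZ C)
    (G Q : Type) [Group G] [Group Q] (p : G →* Q) (hQ : C Q) (hK : IsFreeGroup p.ker) : C G := by
  refine hE G p.range p.rangeRestrict p.rangeRestrict_surjective (hC.sub Q _ hQ) ?_
  rintro V ⟨v, hv⟩
  -- the preimage of `V`
  let GV : Subgroup G := V.comap p.rangeRestrict
  let q : GV →* V := (p.rangeRestrict.subgroupComap V)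
  have hq : Function.Surjective q := by
    rintro ⟨y, hy⟩
    obtain ⟨x, rfl⟩ := p.rangeRestrict_surjective y
    exact ⟨⟨x, hy⟩, rfl⟩
  let H : Subgroup V := Subgroup.zpowers v
  let K : Subgroup GV := H.comap q
  have hfi : K.FiniteIndex := by
    constructor
    rw [Subgroup.index_comap_of_surjective H hq]
    exact hv.index_ne_zero
  refine hC.index GV K hfi ?_
  obtain ⟨g, hg⟩ := hq v
  refine mem_cyc hC hF K V (q.comp K.subtype) v (fun y => y.2) ⟨g, ?_⟩ hg ?_
  · change q g ∈ H
    rw [hg]
    exact Subgroup.mem_zpowers v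
  · let inj : (q.comp K.subtype).ker →* p.ker :=
      { toFun := fun y => ⟨((y : K) : GV), by
          have h1 : q ((y : K) : GV) = 1 := y.2
          have h2 : p.rangeRestrict (((y : K) : GV) : G) = 1 := congrArg Subtype.val h1
          have h3 : p (((y : K) : GV) : G) = 1 := congrArg Subtype.val h2
          exact h3⟩
        map_one' := rfl
        map_mul' := fun _ _ => rfl }
    refine free_of_injective inj ?_ hK
    intro y z h
    have h1 : (((y : K) : GV) : G) = (((z : K) : GV) : G) := congrArg (fun w : p.ker => (w : G)) h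
    exact Subtype.ext (Subtype.ext (Subtype.ext h1))

end Pool.Agent.H10.DT
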