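import Mathlib

/-!
# Identities for the affine diagram `C~_n` with involutions at the ends

One half: `S 0` is an involution, `S 0, S 1, …, S (n - 1)` satisfy the Artin relations of type `B_n`. `T 0 = S 0`,
`T (k + 1) = (S (k + 1))⁻¹ T k S (k + 1)`, `δ = S 1 ⋯ S (n - 1)`, `P = T 0 ⋯ T (n - 1)`. Then `P⁻¹ δ ^ n` commutes with
`S 0, …, S (n - 1)`.
-/

set_option autoImplicit false

namespace Pool.Agent.H10.DT

variable {G : Type*} [Group G]

/-- the relations of type `B_n`, the generator `S 0` is an involution -/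
structure HT (S : ℕ → G) (n : ℕ) : Prop where
  sq : S 0 * S 0 = 1
  b0 : S 0 * S 1 * S 0 * S 1 = S 1 * S 0 * S 1 * S 0
  braid : ∀ k, 1 ≤ k → k + 1 < n → S k * S (k + 1) * S k = S (k + 1) * S k * S (k + 1)
  comm : ∀ j k, j + 2 ≤ k → k < n → S j * S k = S k * S j

/-- the conjugates of the involution -/
def TT (S : ℕ → G) : ℕ → G
  | 0 => S 0
  | k + 1 => (S (k + 1))⁻¹ * TT S k * S (k + 1)

/-- the products of the `S k` -/
def DD (S : ℕ → G) : ℕ → G
  | 0 => 1
  | m + 1 => DD S m * S (m + 1)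

/-- the products of the conjugates -/
def PP (S : ℕ → G) : ℕ → G
  | 0 => 1
  | m + 1 => PP S m * TT S m

/-- the products of the `S k`, `2 ≤ k` -/
def EE (S : ℕ → G) : ℕ → G
  | 0 => 1
  | m + 1 => EE S m * S (m + 2)

theorem TT_succ (S : ℕ → G) (k : ℕ) : TT S (k + 1) = (S (k + 1))⁻¹ * TT S k * S (k + 1) := rfl
theorem DD_succ (S : ℕ → G) (k : ℕ) : DD S (k + 1) = DD S k * S (k + 1) := rfl
theorem PP_succ (S : ℕ → G) (k : ℕ) : PP S (k + 1) = PP S k * TT S k := rfl
theorem EE_succ (S : ℕ → G) (k : ℕ) : EE S (k + 1) = EE S k * S (k + 2) := rfl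

namespace HT

variable {S : ℕ → G} {n : ℕ} (h : HT S n)
include h

theorem tsq (k : ℕ) : TT S k * TT S k = 1 := by
  induction k with
  | zero => exact h.sq
  | succ k ih =>
    calc (S (k + 1))⁻¹ * TT S k * S (k + 1) * ((S (k + 1))⁻¹ * TT S k * S (k + 1))
        = (S (k + 1))⁻¹ * (TT S k * TT S k) * S (k + 1) := by group
      _ = 1 := by rw [ih]; group

theorem t1 (j k : ℕ) (hjk : j + 2 ≤ k) (hk : k < n) : Commute (S k) (TT S j) := by
  induction j with
  | zero => exact (h.comm 0 k hjk hk).symm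
  | succ j ih =>
    have h1 : Commute (S k) (S (j + 1)) := (h.comm (j + 1) k hjk hk).symm
    exact (h1.inv_right.mul_right (ih (by omega))).mul_right h1

theorem t2 (j k : ℕ) (hk : 1 ≤ k) (hkj : k < j) (hj : j < n) : Commute (S k) (TT S j) := by
  induction j with
  | zero => omega
  | succ j ih =>
    rcases Nat.lt_or_ge k j with h1 | h1
    · have h2 : Commute (S k) (S (j + 1)) := h.comm k (j + 1) (by omega) hj
      exact (h2.inv_right.mul_right (ih h1 (by omega))).mul_right h2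
    · have hkj' : k = j := by omega
      subst hkj'
      obtain ⟨m, rfl⟩ : ∃ m, k = m + 1 := ⟨k - 1, by omega⟩
      have h3 : Commute (S (m + 1 + 1)) (TT S m) := h.t1 m (m + 2) le_rfl hj
      have h4 : S (m + 1) * S (m + 1 + 1) * S (m + 1) = S (m + 1 + 1) * S (m + 1) * S (m + 1 + 1) :=
        h.braid (m + 1) (by omega) hj
      rw [TT_succ, TT_succ]
      generalize S (m + 1) = b at h4 ⊢
      generalize S (m + 1 + 1) = c at h3 h4 ⊢
      generalize TT S m = t at h3 ⊢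
      have h5 : b * c⁻¹ * b⁻¹ = c⁻¹ * b⁻¹ * c := by
        have : c * b * c⁻¹ * b⁻¹ = b⁻¹ * (b * c * b) * c⁻¹ * b⁻¹ := by group
        have h6 : b⁻¹ * (b * c * b) * c⁻¹ * b⁻¹ = b⁻¹ * (c * b * c) * c⁻¹ * b⁻¹ := by rw [h4]
        have h7 : c * b * c⁻¹ * b⁻¹ = b⁻¹ * c := by
          rw [this, h6]; group
        calc b * c⁻¹ * b⁻¹ = c⁻¹ * (c * b * c⁻¹ * b⁻¹) := by group
          _ = c⁻¹ * b⁻¹ * c := by rw [h7]; group
      have h8 : c * t * c⁻¹ = t := by rw [h3.eq]; group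
      have h9 : b * (c⁻¹ * (b⁻¹ * t * b) * c) * b⁻¹ = c⁻¹ * (b⁻¹ * t * b) * c := by
        calc b * (c⁻¹ * (b⁻¹ * t * b) * c) * b⁻¹ = (b * c⁻¹ * b⁻¹) * t * (b * c⁻¹ * b⁻¹)⁻¹ := by group
          _ = c⁻¹ * b⁻¹ * (c * t * c⁻¹) * b * c := by rw [h5]; group
          _ = c⁻¹ * (b⁻¹ * t * b) * c := by rw [h8]; group
      exact mul_inv_eq_iff_eq_mul.1 h9

theorem t3 (k : ℕ) (hk : k + 1 < n) :
    TT S k * S (k + 1) * TT S k * S (k + 1) = S (k + 1) * TT S k * S (k + 1) * TT S k := by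
  induction k with
  | zero => exact h.b0
  | succ k ih =>
    have h1 := ih (by omega)
    have h3 : Commute (S (k + 1 + 1)) (TT S k) := h.t1 k (k + 2) le_rfl hk
    have h4 : S (k + 1) * S (k + 1 + 1) * S (k + 1) = S (k + 1 + 1) * S (k + 1) * S (k + 1 + 1) :=
      h.braid (k + 1) (by omega) hk
    rw [TT_succ]
    generalize S (k + 1) = b at h1 h4 ⊢
    generalize S (k + 1 + 1) = c at h3 h4 ⊢
    generalize TT S k = t at h1 h3 ⊢
    have h5 : c = b⁻¹ * c⁻¹ * b * c * b := by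
      calc c = b⁻¹ * c⁻¹ * (c * b * c) := by group
        _ = b⁻¹ * c⁻¹ * (b * c * b) := by rw [h4]
        _ = _ := by group
    have h8 : t = c⁻¹ * t * c := by rw [mul_assoc, ← h3.eq]; group
    have h9 : b⁻¹ * t * b = b⁻¹ * c⁻¹ * t * (b⁻¹ * c⁻¹)⁻¹ := by
      conv_lhs => rw [h8]
      group
    have h10 : c = b⁻¹ * c⁻¹ * b * (b⁻¹ * c⁻¹)⁻¹ := by
      conv_lhs => rw [h5]
      group
    rw [h9]
    generalize hg : b⁻¹ * c⁻¹ = g at h10 ⊢
    rw [h10]
    calc g * t * g⁻¹ * (g * b * g⁻¹) * (g * t * g⁻¹) * (g * b * g⁻¹) = g * (t * b * t * b) * g⁻¹ := by group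
      _ = g * (b * t * b * t) * g⁻¹ := by rw [h1]
      _ = _ := by group

theorem s_t (k : ℕ) (hk : k + 1 < n) :
    S (k + 1) * TT S k * (S (k + 1))⁻¹ = TT S k * TT S (k + 1) * TT S k := by
  have h1 := h.t3 k hk
  have h2 := h.tsq k
  rw [TT_succ]
  generalize S (k + 1) = b at h1 ⊢
  generalize TT S k = t at h1 h2 ⊢
  symm
  calc t * (b⁻¹ * t * b) * t = t * b⁻¹ * (t * b * t * b) * b⁻¹ := by group
    _ = t * b⁻¹ * (b * t * b * t) * b⁻¹ := by rw [h1]
    _ = (t * t) * b * t * b⁻¹ := by group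
    _ = b * t * b⁻¹ := by rw [h2, one_mul]

/-- `P` commutes with the `S k` -/
theorem PP_comm (k m : ℕ) (hkm : k + 2 ≤ m) (hm : m ≤ n) : Commute (S (k + 1)) (PP S m) := by
  have h0 : ∀ j, j ≤ k → Commute (S (k + 1)) (PP S j) := by
    intro j
    induction j with
    | zero => intro _; exact Commute.one_right _
    | succ j ih =>
      intro hj
      exact (ih (by omega)).mul_right (h.t1 j (k + 1) (by omega) (by omega))
  induction m with
  | zero => omega
  | succ m ih =>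
    rcases Nat.lt_or_ge (k + 1) m with h1 | h1
    · exact (ih (by omega) (by omega)).mul_right (h.t2 m (k + 1) (by omega) (by omega) (by omega))
    · have hmk : m = k + 1 := by omega
      subst hmk
      have h2 := h0 k le_rfl
      have h3 := h.s_t k (by omega)
      have h4 : S (k + 1) * TT S (k + 1) * (S (k + 1))⁻¹ = TT S k := by
        rw [TT_succ]; group
      have h5 := h.tsq k
      have h6 : Commute (S (k + 1)) (TT S k * TT S (k + 1)) := by
        have : S (k + 1) * (TT S k * TT S (k + 1)) * (S (k + 1))⁻¹ = TT S k * TT S (k + 1) := by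
          calc S (k + 1) * (TT S k * TT S (k + 1)) * (S (k + 1))⁻¹
              = (S (k + 1) * TT S k * (S (k + 1))⁻¹) * (S (k + 1) * TT S (k + 1) * (S (k + 1))⁻¹) := by group
            _ = TT S k * TT S (k + 1) * (TT S k * TT S k) := by rw [h3, h4]; group
            _ = _ := by rw [h5, mul_one]
        exact mul_inv_eq_iff_eq_mul.1 this
      have h7 := h2.mul_right h6
      rw [← mul_assoc] at h7
      exact h7

/-- the last conjugate -/
theorem DD_TT (m : ℕ) (hm : m < n) : DD S m * TT S m * (DD S m)⁻¹ = TT S 0 := by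
  induction m with
  | zero => rw [DD]; group
  | succ m ih =>
    rw [DD_succ, TT_succ]
    have h1 := ih (by omega)
    calc DD S m * S (m + 1) * ((S (m + 1))⁻¹ * TT S m * S (m + 1)) * (DD S m * S (m + 1))⁻¹
        = DD S m * TT S m * (DD S m)⁻¹ := by group
      _ = _ := h1

theorem DD_comm (k m : ℕ) (hkm : k < m) (hm : m < n) : Commute (DD S k) (TT S m) := by
  induction k with
  | zero => exact Commute.one_left _
  | succ k ih => exact (ih (by omega)).mul_left (h.t2 m (k + 1) (by omega) hkm hm)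

/-- the other conjugates -/
theorem DD_TT' (j m : ℕ) (hjm : j < m) (hm : m < n) :
    DD S m * TT S j * (DD S m)⁻¹ = TT S 0 * TT S (j + 1) * TT S 0 := by
  induction m with
  | zero => omega
  | succ m ih =>
    rcases Nat.lt_or_ge j m with h1 | h1
    · have h2 : Commute (S (m + 1)) (TT S j) := h.t1 j (m + 1) (by omega) hm
      have h3 : S (m + 1) * TT S j * (S (m + 1))⁻¹ = TT S j := by rw [h2.eq, mul_inv_cancel_right]
      rw [DD_succ, mul_inv_rev]
      calc DD S m * S (m + 1) * TT S j * ((S (m + 1))⁻¹ * (DD S m)⁻¹)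
          = DD S m * (S (m + 1) * TT S j * (S (m + 1))⁻¹) * (DD S m)⁻¹ := by group
        _ = _ := by rw [h3]; exact ih h1 (by omega)
    · have hjm' : j = m := by omega
      subst hjm'
      have h2 := h.s_t j hm
      have h3 := h.DD_TT j (by omega)
      have h4 : DD S j * TT S (j + 1) * (DD S j)⁻¹ = TT S (j + 1) := by
        rw [(h.DD_comm j (j + 1) (by omega) hm).eq, mul_inv_cancel_right]
      rw [DD_succ, mul_inv_rev]
      calc DD S j * S (j + 1) * TT S j * ((S (j + 1))⁻¹ * (DD S j)⁻¹)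
          = DD S j * (S (j + 1) * TT S j * (S (j + 1))⁻¹) * (DD S j)⁻¹ := by group
        _ = (DD S j * TT S j * (DD S j)⁻¹) * (DD S j * TT S (j + 1) * (DD S j)⁻¹) *
            (DD S j * TT S j * (DD S j)⁻¹) := by rw [h2]; group
        _ = _ := by rw [h3, h4]

/-- the shift -/
theorem om_shift (j : ℕ) (hj : j + 1 < n) :
    (S 0 * DD S (n - 1)) * TT S j * (S 0 * DD S (n - 1))⁻¹ = TT S (j + 1) := by
  have h1 := h.DD_TT' j (n - 1) (by omega) (by omega)
  have h2 := h.sq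
  have h0 : TT S 0 = S 0 := rfl
  rw [h0] at h1
  calc (S 0 * DD S (n - 1)) * TT S j * (S 0 * DD S (n - 1))⁻¹
      = S 0 * (DD S (n - 1) * TT S j * (DD S (n - 1))⁻¹) * (S 0)⁻¹ := by group
    _ = (S 0 * S 0) * TT S (j + 1) := by rw [h1]; group
    _ = _ := by rw [h2, one_mul]

theorem om_pow (j : ℕ) (hj : j < n) :
    (S 0 * DD S (n - 1)) ^ j * S 0 * ((S 0 * DD S (n - 1)) ^ j)⁻¹ = TT S j := by
  induction j with
  | zero => simp; rfl
  | succ j ih =>
    have h1 := ih (by omega)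
    have h2 := h.om_shift j hj
    rw [pow_succ', mul_inv_rev]
    generalize S 0 * DD S (n - 1) = o at h1 h2 ⊢
    calc o * o ^ j * S 0 * ((o ^ j)⁻¹ * o⁻¹) = o * (o ^ j * S 0 * (o ^ j)⁻¹) * o⁻¹ := by group
      _ = _ := by rw [h1, h2]

/-- `δ ^ m = P_m ω ^ m` -/
theorem DD_pow (m : ℕ) (hm : m ≤ n) :
    (DD S (n - 1)) ^ m = PP S m * (S 0 * DD S (n - 1)) ^ m := by
  induction m with
  | zero => simp [PP]
  | succ m ih =>
    have h1 := h.om_pow m (by omega)
    have h2 := h.sq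
    have h3 : DD S (n - 1) = S 0 * (S 0 * DD S (n - 1)) := by rw [← mul_assoc, h2, one_mul]
    have h4 : (DD S (n - 1)) ^ (m + 1) = (DD S (n - 1)) ^ m * (S 0 * (S 0 * DD S (n - 1))) := by
      rw [pow_succ, ← h3]
    rw [h4, ih (by omega), PP_succ, ← h1, pow_succ]
    group

/-- `P⁻¹ δ ^ n` commutes with `S 0` -/
theorem cc0 (hn : 1 ≤ n) : Commute ((PP S n)⁻¹ * (DD S (n - 1)) ^ n) (S 0) := by
  have h1 := h.DD_pow n le_rfl
  have h2 : (PP S n)⁻¹ * (DD S (n - 1)) ^ n = (S 0 * DD S (n - 1)) ^ n := by rw [h1]; group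
  rw [h2]
  obtain ⟨m, rfl⟩ : ∃ m, n = m + 1 := ⟨n - 1, by omega⟩
  have h3 := h.om_pow m (by omega)
  have h4 := h.DD_TT m (by omega)
  have h5 := h.sq
  rw [pow_succ']
  rw [Nat.add_sub_cancel] at h3 ⊢
  generalize DD S m = D at h3 h4 ⊢
  have h6 : (S 0 * D) * TT S m * (S 0 * D)⁻¹ = S 0 := by
    calc (S 0 * D) * TT S m * (S 0 * D)⁻¹ = S 0 * (D * TT S m * D⁻¹) * (S 0)⁻¹ := by group
      _ = S 0 * TT S 0 * (S 0)⁻¹ := by rw [h4]
      _ = S 0 := by change S 0 * S 0 * (S 0)⁻¹ = S 0; group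
  generalize S 0 * D = o at h3 h6 ⊢
  have h7 : o * o ^ m * S 0 * (o * o ^ m)⁻¹ = S 0 := by
    calc o * o ^ m * S 0 * (o * o ^ m)⁻¹ = o * (o ^ m * S 0 * (o ^ m)⁻¹) * o⁻¹ := by group
      _ = S 0 := by rw [h3, h6]
  exact mul_inv_eq_iff_eq_mul.1 h7

/-- the braid `δ` shifts the generators -/
theorem D_comm1 (m k : ℕ) (hmk : m + 2 ≤ k) (hk : k < n) : Commute (DD S m) (S k) := by
  induction m with
  | zero => exact Commute.one_left _
  | succ m ih => exact (ih (by omega)).mul_left (h.comm (m + 1) k (by omega) hk)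

theorem D_shift (k m : ℕ) (hk : 1 ≤ k) (hkm : k + 1 ≤ m) (hm : m < n) : DD S m * S k = S (k + 1) * DD S m := by
  induction m with
  | zero => omega
  | succ m ih =>
    rcases Nat.lt_or_ge k m with h1 | h1
    · have h2 := ih (by omega) (by omega)
      have h3 : S k * S (m + 1) = S (m + 1) * S k := h.comm k (m + 1) (by omega) hm
      rw [DD_succ, mul_assoc, ← h3, ← mul_assoc, h2, mul_assoc]
    · have hmk : k = m := by omega
      subst hmk
      obtain ⟨p, rfl⟩ : ∃ p, k = p + 1 := ⟨k - 1, by omega⟩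
      have h2 := h.braid (p + 1) (by omega) hm
      have h3 := h.D_comm1 p (p + 1 + 1) (by omega) hm
      rw [DD_succ, DD_succ]
      calc DD S p * S (p + 1) * S (p + 1 + 1) * S (p + 1)
          = DD S p * (S (p + 1) * S (p + 1 + 1) * S (p + 1)) := by group
        _ = (DD S p * S (p + 1 + 1)) * S (p + 1) * S (p + 1 + 1) := by rw [h2]; group
        _ = _ := by rw [h3.eq]; group

omit h in
theorem E_D (m : ℕ) : S 1 * EE S m = DD S (m + 1) := by
  induction m with
  | zero => simp [EE, DD]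
  | succ m ih => rw [EE_succ, ← mul_assoc, ih, DD_succ (k := m + 1)]

theorem D_E (m : ℕ) (hm : m + 2 ≤ n) : DD S (n - 1) * DD S m = EE S m * DD S (n - 1) := by
  induction m with
  | zero => simp [EE, DD]
  | succ m ih =>
    rw [DD_succ, ← mul_assoc, ih (by omega), mul_assoc, h.D_shift (m + 1) (n - 1) (by omega) (by omega) (by omega),
      ← mul_assoc]
    rfl

theorem D_last (hn : 2 ≤ n) : S 1 * (DD S (n - 1) * DD S (n - 1)) = DD S (n - 1) * DD S (n - 1) * S (n - 1) := by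
  obtain ⟨m, rfl⟩ : ∃ m, n = m + 2 := ⟨n - 2, by omega⟩
  have h1 : DD S (m + 2 - 1) = DD S m * S (m + 1) := rfl
  have h2 := h.D_E m le_rfl
  have h3 : S 1 * EE S m = DD S (m + 2 - 1) := E_D m
  have h4 : DD S (m + 2 - 1) * DD S (m + 2 - 1) = EE S m * DD S (m + 2 - 1) * S (m + 2 - 1) := by
    rw [← h2, mul_assoc]
    rfl
  calc S 1 * (DD S (m + 2 - 1) * DD S (m + 2 - 1)) = (S 1 * EE S m) * DD S (m + 2 - 1) * S (m + 2 - 1) := by
        rw [h4]; group
    _ = _ := by rw [h3]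

theorem D_pow_shift (k j : ℕ) (hk : 1 ≤ k) (hj : k + j < n) :
    (DD S (n - 1)) ^ j * S k = S (k + j) * (DD S (n - 1)) ^ j := by
  induction j with
  | zero => simp
  | succ j ih =>
    rw [pow_succ', mul_assoc, ih (by omega), ← mul_assoc, h.D_shift (k + j) (n - 1) (by omega) (by omega) (by omega),
      mul_assoc]
    rfl

/-- the full twist is central -/
theorem D_central (k : ℕ) (hk : 1 ≤ k) (hkn : k < n) : Commute ((DD S (n - 1)) ^ n) (S k) := by
  have h1 := h.D_pow_shift k (n - 1 - k) hk (by omega)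
  have h2 := h.D_last (by omega)
  have h3 := h.D_pow_shift 1 (k - 1) le_rfl (by omega)
  have e1 : k + (n - 1 - k) = n - 1 := by omega
  have e2 : 1 + (k - 1) = k := by omega
  rw [e1] at h1
  rw [e2] at h3
  have e3 : n = (k - 1) + 2 + (n - 1 - k) := by omega
  generalize DD S (n - 1) = D at h1 h2 h3 ⊢
  have h4 : D ^ n = D ^ (k - 1) * (D * D) * D ^ (n - 1 - k) := by
    conv_lhs => rw [e3]
    rw [pow_add, pow_add, pow_two]
  rw [h4]
  change D ^ (k - 1) * (D * D) * D ^ (n - 1 - k) * S k = S k * (D ^ (k - 1) * (D * D) * D ^ (n - 1 - k))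
  calc D ^ (k - 1) * (D * D) * D ^ (n - 1 - k) * S k = D ^ (k - 1) * (D * D) * (D ^ (n - 1 - k) * S k) := by simp only [mul_assoc]
    _ = D ^ (k - 1) * (D * D * S (n - 1)) * D ^ (n - 1 - k) := by rw [h1]; simp only [mul_assoc]
    _ = (D ^ (k - 1) * S 1) * (D * D) * D ^ (n - 1 - k) := by rw [← h2]; simp only [mul_assoc]
    _ = _ := by rw [h3]; simp only [mul_assoc]

theorem cck (k : ℕ) (hk : 1 ≤ k) (hkn : k < n) : Commute ((PP S n)⁻¹ * (DD S (n - 1)) ^ n) (S k) := by
  obtain ⟨p, rfl⟩ : ∃ p, k = p + 1 := ⟨k - 1, by omega⟩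
  exact (h.PP_comm p n (by omega) le_rfl).symm.inv_left.mul_left (h.D_central (p + 1) hk hkn)

end HT

end Pool.Agent.H10.DT
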