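import Pool.Agent.H98.DT.Defs
import Pool.Agent.H10.TL.Main

/-!
# Letters: the relations of `Mq I` form a tower

`KK I` is the normal closure of one relation `[lt g, d lt (lab) d⁻¹]` for each reduced word `g` and each of its letters; `lab` is `g`
without this letter and `d` is a word in shorter letters.
-/

set_option autoImplicit false

namespace Pool.Agent.H10.DT

open Pool.Agent.H98.DT Pool.Agent.H10.TL

variable {I : Type} [LinearOrder I]

variable (I) in
/-- the words in the letters of length less than `m` -/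
def Fl (m : ℕ) : Subgroup (FL I) := Subgroup.closure {x | ∃ h, len h < m ∧ x = FreeGroup.of h}

theorem lt_mem {m : ℕ} {h : Ga I} (hh : len h < m) : lt h ∈ Fl I m := Subgroup.subset_closure ⟨h, hh, rfl⟩

theorem Fl_mono {m n : ℕ} (h : m ≤ n) : Fl I m ≤ Fl I n := by
  apply Subgroup.closure_mono
  rintro x ⟨g, hg, rfl⟩
  exact ⟨g, lt_of_lt_of_le hg h, rfl⟩

theorem act_Fl (v : Ga I) {m n : ℕ} (h : len v + m ≤ n) {x : FL I} (hx : x ∈ Fl I m) : act v x ∈ Fl I n := by
  induction hx using Subgroup.closure_induction with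
  | mem x hx =>
    obtain ⟨g, hg, rfl⟩ := hx
    change act v (lt g) ∈ _
    rw [act_lt]
    apply lt_mem
    have := len_mul_le v g
    omega
  | one => rw [map_one]; exact Subgroup.one_mem _
  | mul a b _ _ ha hb => rw [map_mul]; exact Subgroup.mul_mem _ ha hb
  | inv a _ ha => rw [map_inv]; exact Subgroup.inv_mem _ ha

theorem mu_s_mem (i j : I) : mu i (s j) ∈ Fl I 3 := by
  have h1 : len (1 : Ga I) < 3 := by rw [len_one]; omega
  have h2 : ∀ k : I, len (s k) < 3 := fun k => by rw [len_s]; omega
  have h3 : len (s j * s i) < 3 := by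
    have := len_mul_le (s j) (s i)
    rw [len_s, len_s] at this
    omega
  rcases lt_trichotomy i j with h | h | h
  · rw [mu_s_lt h]; exact Subgroup.one_mem _
  · subst h
    rw [mu_s_self]
    exact Subgroup.mul_mem _ (lt_mem (h2 _)) (Subgroup.inv_mem _ (lt_mem h1))
  · rw [mu_s_gt h]
    exact Subgroup.mul_mem _ (Subgroup.mul_mem _ (Subgroup.mul_mem _ (lt_mem (h2 _)) (Subgroup.inv_mem _ (lt_mem h1)))
      (lt_mem (h2 _))) (Subgroup.inv_mem _ (lt_mem h3))

theorem mu_W_mem (i : I) (l : List I) : mu i (W l) ∈ Fl I (l.length + 2) := by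
  induction l with
  | nil => rw [W_nil, mu_one]; exact Subgroup.one_mem _
  | cons j l ih =>
    rw [W_cons, mu_mul]
    refine Subgroup.mul_mem _ (Fl_mono (by simp) (mu_s_mem i j)) ?_
    exact act_Fl _ (by rw [len_s, List.length_cons]; omega) ih

theorem mu_mem (i : I) (g : Ga I) : mu i g ∈ Fl I (len g + 2) := by
  obtain ⟨l, hl, rfl⟩ := exists_W g
  rw [len_W hl]
  exact mu_W_mem i l

theorem thF_Fl (i : I) {m n : ℕ} (h : m + 1 ≤ n) {x : FL I} (hx : x ∈ Fl I m) : thF i x ∈ Fl I n := by
  induction hx using Subgroup.closure_induction with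
  | mem x hx =>
    obtain ⟨g, hg, rfl⟩ := hx
    change thF i (lt g) ∈ _
    rw [thF_lt]
    have h1 : mu i g ∈ Fl I n := Fl_mono (by omega) (mu_mem i g)
    have h2 : lt (g * s i) ∈ Fl I n := by
      apply lt_mem
      have := len_mul_le g (s i)
      rw [len_s] at this
      omega
    exact Subgroup.mul_mem _ (Subgroup.mul_mem _ h1 h2) (Subgroup.inv_mem _ h1)
  | one => rw [map_one]; exact Subgroup.one_mem _
  | mul a b _ _ ha hb => rw [map_mul]; exact Subgroup.mul_mem _ ha hb
  | inv a _ ha => rw [map_inv]; exact Subgroup.inv_mem _ ha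

theorem thF_W (i : I) (l : List I) (hl : (l ++ [i]).IsChain (· ≠ ·)) :
    ∃ κ ∈ Fl I (l.length + 1), thF i (lt (W l)) = κ * lt (W (l ++ [i])) * κ⁻¹ := by
  rcases List.eq_nil_or_concat l with rfl | ⟨l', j, rfl⟩
  · refine ⟨1, Subgroup.one_mem _, ?_⟩
    rw [thF_lt]
    simp
  · rw [List.concat_eq_append] at hl ⊢
    have hji : j ≠ i := by
      rw [List.append_assoc] at hl
      have := (List.isChain_append.1 hl).2.1
      exact (List.isChain_cons_cons.1 this).1
    have hW : W (l' ++ [j] ++ [i]) = W l' * s j * s i := by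
      rw [W_append, W_append]; simp
    have hW' : W (l' ++ [j]) = W l' * s j := by
      rw [W_append]; simp
    have h1 : mu i (W l') ∈ Fl I (l'.length + 2) := mu_W_mem i l'
    have hlen : (l' ++ [j]).length + 1 = l'.length + 2 := by simp
    rw [hlen, hW, hW']
    rcases lt_or_gt_of_ne hji with h | h
    · refine ⟨mu i (W l') * lt (W l' * s i) * (lt (W l'))⁻¹ * lt (W l' * s j), ?_, ?_⟩
      · have e1 : len (W l' * s i) < l'.length + 2 := by
          have := len_mul_le (W l') (s i)
          have := len_W_le l'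
          rw [len_s] at *
          omega
        have e2 : len (W l' * s j) < l'.length + 2 := by
          have := len_mul_le (W l') (s j)
          have := len_W_le l'
          rw [len_s] at *
          omega
        have e3 : len (W l') < l'.length + 2 := by
          have := len_W_le l'
          omega
        exact Subgroup.mul_mem _ (Subgroup.mul_mem _ (Subgroup.mul_mem _ h1 (lt_mem e1))
          (Subgroup.inv_mem _ (lt_mem e3))) (lt_mem e2)
      · rw [thF_lt, mu_mul, mu_s_gt h]
        simp only [map_mul, map_inv, act_lt, mul_one, ← mul_assoc]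
        group
    · refine ⟨mu i (W l'), h1, ?_⟩
      rw [thF_lt, mu_mul, mu_s_lt h, map_one, mul_one]

omit [LinearOrder I] in
theorem chain_rev {w : List I} (hw : w.IsChain (· ≠ ·)) : w.reverse.IsChain (· ≠ ·) := by
  rw [List.isChain_reverse]
  exact hw.imp fun _ _ h => h.symm

theorem thW_one (w : List I) (hw : w.IsChain (· ≠ ·)) :
    ∃ κ ∈ Fl I w.length, thW w (lt (1 : Ga I)) = κ * lt (W w.reverse) * κ⁻¹ := by
  induction w with
  | nil => exact ⟨1, Subgroup.one_mem _, by simp⟩
  | cons i w ih =>
    obtain ⟨κ, hκ, h1⟩ := ih hw.tail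
    have h2 : (w.reverse ++ [i]).IsChain (· ≠ ·) := by
      have := chain_rev hw
      rwa [List.reverse_cons] at this
    obtain ⟨κ', hκ', h3⟩ := thF_W i w.reverse h2
    rw [List.length_reverse] at hκ'
    refine ⟨thF i κ * κ', Subgroup.mul_mem _ (thF_Fl i (by simp) hκ) hκ', ?_⟩
    rw [thW_cons, h1, map_mul, map_mul, map_inv, h3, List.reverse_cons]
    group

theorem thW_append (w w' : List I) (x : FL I) : thW (w ++ w') x = thW w (thW w' x) := by
  induction w with
  | nil => rfl
  | cons i w ih => rw [List.cons_append, thW_cons, ih, thW_cons]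

theorem thW_s (w : List I) (i : I) : thW w (lt (s i)) = thW (w ++ [i]) (lt (1 : Ga I)) := by
  rw [thW_append, thW_cons, thW_nil, thF_lt]
  simp

theorem thW_act (w : List I) (u : Ga I) : ∃ c : FL I, ∀ x, thW w (act u x) = c * act u (thW w x) * c⁻¹ := by
  induction w with
  | nil => exact ⟨1, fun x => by simp⟩
  | cons i w ih =>
    obtain ⟨c, hc⟩ := ih
    refine ⟨thF i c * mu i u, fun x => ?_⟩
    rw [thW_cons, hc, map_mul, map_mul, map_inv, thF_act, thW_cons]
    group

end Pool.Agent.H10.DT
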