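import Pool.Agent.H10.DT.Let

/-!
# The relations of `Mq I` form a tower, second part
-/

set_option autoImplicit false

namespace Pool.Agent.H10.DT

open Pool.Agent.H98.DT Pool.Agent.H10.TL

variable {I : Type} [LinearOrder I]

theorem rel_tower (v : List I) (i : I) (w : List I) (h : (v ++ i :: w).IsChain (· ≠ ·)) :
    ∃ d z : FL I, d * lt (W (v ++ w)) * d⁻¹ ∈ Fl I (len (W (v ++ i :: w))) ∧
      z⁻¹ * rel (W v) w.reverse i * z = (cm (lt (W (v ++ i :: w))) (d * lt (W (v ++ w)) * d⁻¹))⁻¹ := by
  have hiw : (i :: w).IsChain (· ≠ ·) := (List.isChain_append.1 h).2.1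
  have hw : w.IsChain (· ≠ ·) := hiw.tail
  obtain ⟨κ, hκ, h1⟩ := thW_one w.reverse (chain_rev hw)
  obtain ⟨κ', hκ', h2⟩ := thW_one (w.reverse ++ [i]) (by
    rw [← List.reverse_cons]
    exact chain_rev hiw)
  rw [← thW_s] at h2
  rw [List.reverse_reverse] at h1
  rw [List.reverse_append, List.reverse_reverse, List.reverse_singleton, List.singleton_append] at h2
  rw [List.length_reverse] at hκ
  rw [List.length_append, List.length_reverse, List.length_singleton] at hκ'
  have hv : len (W v) ≤ v.length := len_W_le v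
  have hlen : len (W (v ++ i :: w)) = v.length + w.length + 1 := by
    rw [len_W h]
    simp
    omega
  have hA : act (W v) κ ∈ Fl I (len (W (v ++ i :: w))) := act_Fl _ (by omega) hκ
  have hA' : act (W v) κ' ∈ Fl I (len (W (v ++ i :: w))) := act_Fl _ (by omega) hκ'
  have hlab : lt (W (v ++ w)) ∈ Fl I (len (W (v ++ i :: w))) := by
    apply lt_mem
    have := len_W_le (v ++ w)
    rw [List.length_append] at this
    omega
  refine ⟨(act (W v) κ')⁻¹ * act (W v) κ, act (W v) κ', ?_, ?_⟩
  · exact Subgroup.mul_mem _ (Subgroup.mul_mem _ (Subgroup.mul_mem _ (Subgroup.inv_mem _ hA') hA) hlab)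
      (Subgroup.inv_mem _ (Subgroup.mul_mem _ (Subgroup.inv_mem _ hA') hA))
  · have e1 : W (v ++ w) = W v * W w := W_append v w
    have e2 : W (v ++ i :: w) = W v * W (i :: w) := W_append v (i :: w)
    rw [rel, map_cm, h1, h2, map_cm]
    simp only [map_mul, map_inv, act_lt, e1, e2, cm]
    group

variable (I) in
/-- reduced words with a marked letter -/
def JJ : Type := {p : List I × I × List I // (p.1 ++ p.2.1 :: p.2.2).IsChain (· ≠ ·)}

/-- the conjugating words -/
noncomputable def dJ (p : JJ I) : FL I := (rel_tower p.1.1 p.1.2.1 p.1.2.2 p.2).choose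

theorem dJ_spec (p : JJ I) : ∃ z : FL I,
    dJ p * lt (W (p.1.1 ++ p.1.2.2)) * (dJ p)⁻¹ ∈ Fl I (len (W (p.1.1 ++ p.1.2.1 :: p.1.2.2))) ∧
      z⁻¹ * rel (W p.1.1) p.1.2.2.reverse p.1.2.1 * z =
        (cm (lt (W (p.1.1 ++ p.1.2.1 :: p.1.2.2))) (dJ p * lt (W (p.1.1 ++ p.1.2.2)) * (dJ p)⁻¹))⁻¹ :=
  (rel_tower p.1.1 p.1.2.1 p.1.2.2 p.2).choose_spec

omit [LinearOrder I] in
theorem par_ne (v : List I) (i : I) (w : List I) : par (W (v ++ i :: w)) = - par (W (v ++ w)) := by
  rw [par_W, par_W]
  simp only [List.length_append, List.length_cons]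
  rw [show v.length + (w.length + 1) = v.length + w.length + 1 by omega, pow_succ]
  simp

variable (I) in
/-- the tower -/
noncomputable def TDI : TD (Ga I) (JJ I) where
  ℓ := len
  par g := decide (par g = 1)
  g p := W (p.1.1 ++ p.1.2.1 :: p.1.2.2)
  lab p := W (p.1.1 ++ p.1.2.2)
  d := dJ
  hlev h h' hh := by
    have h1 : par h = par h' := by
      rw [← W_rw h, ← W_rw h', par_W, par_W]
      have : (rw h).length = (rw h').length := hh
      rw [this]
    rw [h1]
  hpar p := by
    rw [par_ne]
    rcases units_cases (par (W (p.1.1 ++ p.1.2.2))) 1 with h | h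
    · rw [h]; decide
    · rw [h]; decide
  hlow p := (dJ_spec p).choose_spec.1
  hinj := by
    rintro ⟨⟨v, i, w⟩, h⟩ ⟨⟨v', i', w'⟩, h'⟩ h1 h2
    simp only at h h' h1 h2
    have hiw : (i :: w).IsChain (· ≠ ·) := (List.isChain_append.1 h).2.1
    have hiw' : (i' :: w').IsChain (· ≠ ·) := (List.isChain_append.1 h').2.1
    have c1 : (w.reverse ++ i :: w).IsChain (· ≠ ·) := by
      rw [List.isChain_split]
      exact ⟨by rw [← List.reverse_cons]; exact chain_rev hiw, hiw⟩
    have c2 : (w'.reverse ++ i' :: w').IsChain (· ≠ ·) := by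
      rw [List.isChain_split]
      exact ⟨by rw [← List.reverse_cons]; exact chain_rev hiw', hiw'⟩
    have key : ∀ (v : List I) (i : I) (w : List I),
        W (w.reverse ++ i :: w) = (W (v ++ i :: w))⁻¹ * W (v ++ w) := by
      intro v i w
      simp only [W_append, W_cons, W_reverse, mul_inv_rev, s_inv]
      group
    have h3 : W (w.reverse ++ i :: w) = W (w'.reverse ++ i' :: w') := by
      rw [key v, key v', h1, h2]
    have h4 := W_inj c1 c2 h3
    have h5 : w.length = w'.length := by
      have := congrArg List.length h4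
      simp at this
      omega
    have h6 := List.append_inj h4 (by simpa using h5)
    have h7 : i = i' ∧ w = w' := by
      have := h6.2
      simpa using this
    obtain ⟨rfl, rfl⟩ := h7
    have h8 := W_inj h h' h1
    have h9 : v = v' := List.append_cancel_right h8
    subst h9
    rfl

theorem rels_le : Subgroup.normalClosure (TDI I).rels ≤ KK I := by
  apply Subgroup.normalClosure_le_normal
  rintro _ ⟨p, rfl⟩
  obtain ⟨z, -, h⟩ := dJ_spec p
  change cm (lt (W (p.1.1 ++ p.1.2.1 :: p.1.2.2))) (dJ p * lt (W (p.1.1 ++ p.1.2.2)) * (dJ p)⁻¹) ∈ KK I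
  rw [← Subgroup.inv_mem_iff, ← h]
  have := (inferInstance : (KK I).Normal).conj_mem _ (rel_mem (W p.1.1) p.1.2.2.reverse p.1.2.1) z⁻¹
  rwa [inv_inv] at this

/-- the relations for reduced words -/
theorem base_mem (v : List I) (i : I) (w : List I) (h : (v ++ i :: w).IsChain (· ≠ ·)) :
    rel (W v) w.reverse i ∈ Subgroup.normalClosure (TDI I).rels := by
  obtain ⟨z, -, h1⟩ := dJ_spec (⟨(v, i, w), h⟩ : JJ I)
  simp only at h1
  have h2 : cm (lt (W (v ++ i :: w))) (dJ (⟨(v, i, w), h⟩ : JJ I) * lt (W (v ++ w)) *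
      (dJ (⟨(v, i, w), h⟩ : JJ I))⁻¹) ∈ Subgroup.normalClosure (TDI I).rels :=
    Subgroup.subset_normalClosure ⟨⟨(v, i, w), h⟩, rfl⟩
  have h3 : rel (W v) w.reverse i = z * (z⁻¹ * rel (W v) w.reverse i * z) * z⁻¹ := by group
  rw [h3, h1]
  exact Subgroup.normalClosure_normal.conj_mem _ (Subgroup.inv_mem _ h2) z

/-- a list which is not reduced -/
theorem not_chain {w : List I} (hw : ¬ w.IsChain (· ≠ ·)) : ∃ w₁ j w₂, w = w₁ ++ j :: j :: w₂ := by
  induction w with
  | nil => exact absurd List.isChain_nil hw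
  | cons a w ih =>
    cases w with
    | nil => exact absurd (List.isChain_singleton a) hw
    | cons b w =>
      by_cases hab : a = b
      · subst hab
        exact ⟨[], a, w, rfl⟩
      · have : ¬ (b :: w).IsChain (· ≠ ·) := fun h => hw (List.isChain_cons_cons.2 ⟨hab, h⟩)
        obtain ⟨w₁, j, w₂, h⟩ := ih this
        exact ⟨a :: w₁, j, w₂, by rw [h]; rfl⟩

theorem rel_s (v : Ga I) (w : List I) (i : I) : ∃ z : FL I,
    rel (v * s i) w i = z * (rel v w i)⁻¹ * z⁻¹ := by
  obtain ⟨c, hc⟩ := thW_act w (s i)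
  refine ⟨(act v c)⁻¹, ?_⟩
  have h1 : act (s i) (cm (lt (1 : Ga I)) (lt (s i))) = (cm (lt (1 : Ga I)) (lt (s i)))⁻¹ := by
    rw [map_cm, act_lt, act_lt, mul_one, s_mul_s]
    simp only [cm]
    group
  have h2 := hc (cm (lt (1 : Ga I)) (lt (s i)))
  rw [h1, map_inv] at h2
  have h3 : act (s i) (thW w (cm (lt (1 : Ga I)) (lt (s i)))) =
      c⁻¹ * (thW w (cm (lt (1 : Ga I)) (lt (s i))))⁻¹ * c := by
    rw [h2]; group
  rw [rel, act_mul, h3, map_mul, map_mul, map_inv, map_inv, rel]
  group

theorem rel_concat (v : Ga I) (w : List I) (i : I) : ∃ z : FL I,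
    rel v (w ++ [i]) i = z * (rel v w i)⁻¹ * z⁻¹ := by
  have h1 : thF i (cm (lt (1 : Ga I)) (lt (s i))) = lt (s i) * (cm (lt (1 : Ga I)) (lt (s i)))⁻¹ * (lt (s i))⁻¹ := by
    rw [map_cm, thF_lt, thF_lt, mu_one, mu_s_self, s_mul_s, one_mul]
    simp only [cm]
    group
  refine ⟨act v (thW w (lt (s i))), ?_⟩
  rw [rel, thW_append, thW_cons, thW_nil, h1]
  simp only [map_mul, map_inv, rel]

/-- the elements `[lt g, lt (g s_j)]` -/
def Sj (j : I) : Set (FL I) := {x | ∃ u : Ga I, x = act u (cm (lt 1) (lt (s j)))}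

omit [LinearOrder I] in
theorem act_Sj (j : I) (v : Ga I) {x : FL I} (hx : x ∈ Subgroup.normalClosure (Sj j)) :
    act v x ∈ Subgroup.normalClosure (Sj j) := by
  have : Subgroup.normalClosure (Sj j) ≤ (Subgroup.normalClosure (Sj j)).comap (act v) := by
    apply Subgroup.normalClosure_le_normal
    rintro _ ⟨u, rfl⟩
    refine Subgroup.subset_normalClosure ⟨v * u, ?_⟩
    rw [act_mul]
  exact this hx

theorem nu_mem (j : I) (g : Ga I) : thF j (mu j g) * mu j g ∈ Subgroup.normalClosure (Sj j) := by
  let N := Subgroup.normalClosure (Sj j)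
  have hN : N.Normal := Subgroup.normalClosure_normal
  have hab : thF j (lt (s j) * (lt (1 : Ga I))⁻¹) * (lt (s j) * (lt (1 : Ga I))⁻¹) ∈ N := by
    have h1 : thF j (lt (s j) * (lt (1 : Ga I))⁻¹) * (lt (s j) * (lt (1 : Ga I))⁻¹) =
        (cm (lt (1 : Ga I)) (lt (s j)))⁻¹ := by
      rw [map_mul, map_inv, thF_lt, thF_lt, mu_one, mu_s_self, s_mul_s, one_mul]
      simp only [cm]
      group
    rw [h1]
    exact Subgroup.inv_mem _ (Subgroup.subset_normalClosure ⟨1, by rw [act_one]⟩)
  have hs : ∀ k, thF j (mu j (s k)) * mu j (s k) ∈ N := by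
    intro k
    rcases lt_trichotomy j k with h | h | h
    · rw [mu_s_lt h, map_one, mul_one]; exact Subgroup.one_mem _
    · subst h
      rw [mu_s_self]
      exact hab
    · have e1 : mu j (s k) = lt (s j) * (lt (1 : Ga I))⁻¹ * (act (s k) (lt (s j) * (lt (1 : Ga I))⁻¹))⁻¹ := by
        rw [mu_s_gt h, map_mul, map_inv, act_lt, act_lt, mul_one]
        group
      generalize hw : lt (s j) * (lt (1 : Ga I))⁻¹ = w at e1 hab
      have h2 : act (s k) (thF j w * w) ∈ N := act_Sj j _ hab
      rw [map_mul] at h2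
      have e2 : thF j (mu j (s k)) * mu j (s k) =
          thF j w * mu j (s k) * (act (s k) (thF j w))⁻¹ := by
        conv_lhs => rw [e1, map_mul, map_inv, thF_act, ← e1]
        group
      rw [e2]
      have e3 : thF j w * mu j (s k) * (act (s k) (thF j w))⁻¹ =
          (thF j w * w) * (act (s k) (thF j w) * act (s k) w)⁻¹ := by
        rw [e1]
        group
      rw [e3]
      exact Subgroup.mul_mem _ hab (Subgroup.inv_mem _ h2)
  obtain ⟨l, -, rfl⟩ := exists_W g
  induction l with
  | nil => rw [W_nil, mu_one, map_one, mul_one]; exact Subgroup.one_mem _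
  | cons k l ih =>
    have e1 : thF j (mu j (W (k :: l))) * mu j (W (k :: l)) =
        (thF j (mu j (s k)) * mu j (s k)) * act (s k) (thF j (mu j (W l)) * mu j (W l)) := by
      rw [W_cons, mu_mul, map_mul, thF_act, map_mul]
      group
    rw [e1]
    exact Subgroup.mul_mem _ (hs k) (act_Sj j _ ih)

theorem sq_mem (j : I) (x : FL I) : thF j (thF j x) * x⁻¹ ∈ Subgroup.normalClosure (Sj j) := by
  let N := Subgroup.normalClosure (Sj j)
  have hN : N.Normal := Subgroup.normalClosure_normal
  let π := QuotientGroup.mk' N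
  have hπ : ∀ y, y ∈ N → π y = 1 := fun y hy => (QuotientGroup.eq_one_iff y).2 hy
  have h1 : (π.comp (thF j)).comp (thF j) = π := by
    refine FreeGroup.ext_hom _ _ fun g => ?_
    change π (thF j (thF j (lt g))) = π (lt g)
    have e1 : thF j (thF j (lt g)) = (thF j (mu j g) * mu j g) * (lt (g * s j) * (lt g)⁻¹) * lt g *
        ((thF j (mu j g) * mu j g) * (lt (g * s j) * (lt g)⁻¹))⁻¹ := by
      rw [thF_lt, map_mul, map_mul, map_inv, thF_lt, mu_mul, mu_s_self, map_mul, map_inv, act_lt, act_lt, mul_one]
      rw [mul_assoc g, s_mul_s, mul_one]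
      group
    have e2 : π (thF j (mu j g) * mu j g) = 1 := hπ _ (nu_mem j g)
    have e3 : π (cm (lt g) (lt (g * s j))) = 1 := by
      apply hπ
      refine Subgroup.subset_normalClosure ⟨g, ?_⟩
      rw [map_cm, act_lt, act_lt, mul_one]
    rw [e1]
    generalize thF j (mu j g) * mu j g = ν at e2 ⊢
    have e4 : π (ν * (lt (g * s j) * (lt g)⁻¹)) = π (lt (g * s j)) * (π (lt g))⁻¹ := by
      rw [map_mul, e2, one_mul, map_mul, map_inv]
    rw [map_mul, map_mul, map_inv, e4]
    rw [map_cm] at e3
    simp only [cm] at e3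
    rw [mul_inv_eq_one, mul_inv_eq_iff_eq_mul] at e3
    generalize π (lt g) = a at e3 ⊢
    generalize π (lt (g * s j)) = b at e3 ⊢
    calc b * a⁻¹ * a * (b * a⁻¹)⁻¹ = b * a * b⁻¹ := by group
      _ = a * b * b⁻¹ := by rw [e3]
      _ = a := by group
  have h2 : π (thF j (thF j x)) = π x := DFunLike.congr_fun h1 x
  have h3 : π (thF j (thF j x) * x⁻¹) = 1 := by rw [map_mul, map_inv, h2, mul_inv_cancel]
  exact (QuotientGroup.eq_one_iff _).1 h3

theorem rel_mem_rels (n : ℕ) : ∀ w : List I, w.length < n → ∀ (v : Ga I) (i : I),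
    rel v w i ∈ Subgroup.normalClosure (TDI I).rels := by
  induction n with
  | zero => exact fun w hw => absurd hw (Nat.not_lt_zero _)
  | succ n ih =>
    intro w hw v i
    have hN : (Subgroup.normalClosure (TDI I).rels).Normal := Subgroup.normalClosure_normal
    by_cases hc : w.IsChain (· ≠ ·)
    · by_cases hc2 : (w ++ [i]).IsChain (· ≠ ·)
      · -- reduced
        have hiw : (i :: w.reverse).IsChain (· ≠ ·) := by
          have := chain_rev hc2
          rwa [List.reverse_append, List.reverse_singleton, List.singleton_append] at this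
        obtain ⟨l, hl, rfl⟩ := exists_W v
        have key : ∀ l : List I, (l ++ [i]).IsChain (· ≠ ·) → rel (W l) w i ∈
            Subgroup.normalClosure (TDI I).rels := by
          intro l hl
          have := base_mem l i w.reverse (by
            rw [List.isChain_split]
            exact ⟨hl, hiw⟩)
          rwa [List.reverse_reverse] at this
        by_cases hl2 : (l ++ [i]).IsChain (· ≠ ·)
        · exact key l hl2
        · -- `l` ends with `i`
          rcases List.eq_nil_or_concat l with rfl | ⟨l', k, rfl⟩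
          · exact absurd (by simp) hl2
          · rw [List.concat_eq_append] at hl hl2 ⊢
            have hki : k = i := by
              by_contra hki
              apply hl2
              rw [List.append_assoc, List.singleton_append, List.isChain_split]
              exact ⟨hl, by simp [hki]⟩
            subst hki
            obtain ⟨z, hz⟩ := rel_s (W l') w k
            rw [W_append, W_cons, W_nil, mul_one, hz]
            exact hN.conj_mem _ (Subgroup.inv_mem _ (key l' hl)) z
      · rcases List.eq_nil_or_concat w with rfl | ⟨w', k, rfl⟩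
        · exact absurd (by simp) hc2
        · rw [List.concat_eq_append] at hc hc2 hw ⊢
          have hki : k = i := by
            by_contra hki
            apply hc2
            rw [List.append_assoc, List.singleton_append, List.isChain_split]
            exact ⟨hc, by simp [hki]⟩
          subst hki
          obtain ⟨z, hz⟩ := rel_concat v w' k
          rw [hz]
          have : w'.length < n := by
            simp at hw
            omega
          exact hN.conj_mem _ (Subgroup.inv_mem _ (ih w' this v k)) z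
    · obtain ⟨w₁, j, w₂, rfl⟩ := not_chain hc
      have hl1 : w₁.length < n := by
        simp at hw
        omega
      have hl2 : (w₁ ++ w₂).length < n := by
        simp at hw
        rw [List.length_append]
        omega
      have h1 : rel v (w₁ ++ w₂) i ∈ Subgroup.normalClosure (TDI I).rels := ih _ hl2 v i
      -- the difference
      have h2 : Subgroup.normalClosure (Sj j) ≤
          (Subgroup.normalClosure (TDI I).rels).comap ((act v).comp (thW w₁)) := by
        apply Subgroup.normalClosure_le_normal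
        rintro _ ⟨u, rfl⟩
        obtain ⟨c, hc⟩ := thW_act w₁ u
        change act v (thW w₁ (act u (cm (lt 1) (lt (s j))))) ∈ Subgroup.normalClosure (TDI I).rels
        rw [hc, map_mul, map_mul, map_inv, ← act_mul]
        exact hN.conj_mem _ (ih w₁ hl1 (v * u) j) _
      have h3 := h2 (sq_mem j (thW w₂ (cm (lt (1 : Ga I)) (lt (s i)))))
      have h4 : rel v (w₁ ++ j :: j :: w₂) i = ((act v).comp (thW w₁))
          (thF j (thF j (thW w₂ (cm (lt (1 : Ga I)) (lt (s i))))) * (thW w₂ (cm (lt (1 : Ga I)) (lt (s i))))⁻¹) *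
          rel v (w₁ ++ w₂) i := by
        rw [rel, rel, thW_append, thW_append, thW_cons, thW_cons, map_mul, map_inv]
        simp only [MonoidHom.comp_apply]
        group
      rw [h4]
      exact Subgroup.mul_mem _ h3 h1

theorem rels_eq : Subgroup.normalClosure (TDI I).rels = KK I :=
  le_antisymm rels_le (KK_le fun v w i => rel_mem_rels (w.length + 1) w (Nat.lt_succ_self _) v i)

/-- the kernel of the two projections is free -/
theorem free_R : IsFreeGroup (Kr I 1 ⊓ Kr I (-1) : Subgroup (Mq I)) := by
  let e : (TDI I).M ≃* Mq I := QuotientGroup.quotientMulEquivOfEq rels_eq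
  have he : ∀ x : FL I, e ((TDI I).q x) = QuotientGroup.mk' (KK I) x := fun x => rfl
  have hpi : ∀ (b : Bool) (y : (TDI I).M), (TDI I).pi b y = prM (if b then 1 else -1) (e y) := by
    intro b y
    have : (TDI I).pi b = (prM (if b then 1 else -1)).comp e.toMonoidHom := by
      apply (TDI I).hom_ext
      intro g
      change (TDI I).pi b ((TDI I).x g) = prM (if b then 1 else -1) (e ((TDI I).q (FreeGroup.of g)))
      rw [TD.pi_x, he, prM_mk]
      change _ = pr _ (lt g)
      rw [pr_lt]
      have h1 : (TDI I).par g = decide (par g = 1) := rfl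
      rw [h1]
      rcases units_cases (par g) 1 with h | h
      · rw [h]
        cases b
        · simp
        · simp; rfl
      · rw [h]
        cases b
        · simp; rfl
        · simp
    exact DFunLike.congr_fun this y
  have hmap : (TDI I).R.map e.toMonoidHom = Kr I 1 ⊓ Kr I (-1) := by
    ext y
    constructor
    · rintro ⟨x, hx, rfl⟩
      have h1 := (TD.mem_R _).1 hx
      refine ⟨?_, ?_⟩
      · have := h1 true
        rw [hpi] at this
        exact this
      · have := h1 false
        rw [hpi] at this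
        exact this
    · rintro ⟨h1, h2⟩
      refine ⟨e.symm y, ?_, e.apply_symm_apply y⟩
      change e.symm y ∈ (TDI I).R
      rw [TD.mem_R]
      intro b
      rw [hpi, e.apply_symm_apply]
      cases b
      · exact h2
      · exact h1
  have h1 : IsFreeGroup (TDI I).R := (TDI I).R_free
  have e2 : (TDI I).R ≃* (Kr I 1 ⊓ Kr I (-1) : Subgroup (Mq I)) :=
    (e.subgroupMap (TDI I).R).trans (MulEquiv.subgroupCongr hmap)
  exact IsFreeGroup.ofMulEquiv e2

end Pool.Agent.H10.DT
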